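import Mathlib

set_option autoImplicit false

namespace TH22.Wp

open MvPolynomial

variable {F : Type*} [Field F]

/-- The affine form `b + ∑ l j x_j`. -/
noncomputable def affForm {K : ℕ} (b : F) (l : Fin K → F) : MvPolynomial (Fin K) F :=
  C b + ∑ j, C (l j) * X j

theorem pderiv_affForm {K : ℕ} (b : F) (l : Fin K → F) (j : Fin K) :
    pderiv j (affForm b l) = C (l j) := by
  classical
  rw [affForm, map_add, pderiv_C, zero_add, map_sum, Finset.sum_eq_single j]
  · rw [pderiv_C_mul, pderiv_X_self, mul_one]
  · intro i _ hi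
    rw [pderiv_C_mul, pderiv_X_of_ne hi, mul_zero]
  · simp

/-- The coefficients of a power of an affine form. -/
theorem coeff_pow_affForm {K : ℕ} (b : F) (l : Fin K → F) (k : ℕ) :
    ∀ (d : ℕ) (m : Fin K →₀ ℕ), m.degree = k →
      (∏ j, ((m j).factorial : F)) * coeff m (affForm b l ^ d) =
        (d.descFactorial k : F) * b ^ (d - k) * ∏ j, l j ^ m j := by
  classical
  induction k with
  | zero =>
    intro d m hm
    rw [Finsupp.degree_eq_zero_iff] at hm
    subst hm
    have : coeff 0 (affForm b l ^ d) = b ^ d := by
      rw [← constantCoeff_eq, map_pow]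
      congr 1
      rw [affForm, map_add, constantCoeff_C, map_sum]
      simp
    rw [this]
    simp
  | succ k ih =>
    intro d m hm
    obtain ⟨j, hj⟩ : ∃ j, m j ≠ 0 := by
      by_contra hcon
      push Not at hcon
      have : m = 0 := Finsupp.ext hcon
      rw [this] at hm
      simp at hm
    set m' := m - Finsupp.single j 1 with hm'
    have hmm : m = m' + Finsupp.single j 1 := by
      rw [hm', tsub_add_cancel_of_le]
      rw [Finsupp.single_le_iff]
      omega
    have hdeg : m'.degree = k := by
      have := congrArg Finsupp.degree hmm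
      rw [map_add, Finsupp.degree_single, hm] at this
      omega
    have h1 := coeff_pderiv (i := j) (affForm b l ^ d) m'
    rw [pderiv_pow, pderiv_affForm, ← hmm] at h1
    have hfac : (∏ i, ((m i).factorial : F)) = ((m' j : F) + 1) * ∏ i, ((m' i).factorial : F) := by
      rw [← Finset.mul_prod_erase _ _ (Finset.mem_univ j),
        ← Finset.mul_prod_erase Finset.univ (fun i => ((m' i).factorial : F)) (Finset.mem_univ j)]
      have h2 : m j = m' j + 1 := by rw [hmm]; simp
      have h3 : ∏ x ∈ Finset.univ.erase j, ((m x).factorial : F) =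
          ∏ x ∈ Finset.univ.erase j, ((m' x).factorial : F) := by
        apply Finset.prod_congr rfl
        intro x hx
        rw [hmm, Finsupp.add_apply, Finsupp.single_apply, if_neg (Finset.ne_of_mem_erase hx).symm,
          add_zero]
      rw [h2, h3, Nat.factorial_succ]
      push_cast
      ring
    have hpow : (∏ i, l i ^ m i) = l j * ∏ i, l i ^ m' i := by
      rw [← Finset.mul_prod_erase _ _ (Finset.mem_univ j),
        ← Finset.mul_prod_erase Finset.univ (fun i => l i ^ m' i) (Finset.mem_univ j)]
      have h2 : m j = m' j + 1 := by rw [hmm]; simp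
      have h3 : ∏ x ∈ Finset.univ.erase j, l x ^ m x =
          ∏ x ∈ Finset.univ.erase j, l x ^ m' x := by
        apply Finset.prod_congr rfl
        intro x hx
        rw [hmm, Finsupp.add_apply, Finsupp.single_apply, if_neg (Finset.ne_of_mem_erase hx).symm,
          add_zero]
      rw [h2, h3, pow_succ]
      ring
    rw [hfac, hpow]
    have h4 : coeff m' ((d : MvPolynomial (Fin K) F) * affForm b l ^ (d - 1) * C (l j)) =
        (d : F) * l j * coeff m' (affForm b l ^ (d - 1)) := by
      rw [mul_comm _ (C (l j)), coeff_C_mul]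
      have : (d : MvPolynomial (Fin K) F) = C (d : F) := by simp
      rw [this, coeff_C_mul]
      ring
    rw [h4] at h1
    rcases Nat.eq_zero_or_pos d with hd | hd
    · subst hd
      have h5 : coeff m (affForm b l ^ 0) * ((m' j : F) + 1) = 0 := by
        rw [← h1]; simp
      calc ((m' j : F) + 1) * (∏ i, ((m' i).factorial : F)) * coeff m (affForm b l ^ 0)
          = (∏ i, ((m' i).factorial : F)) * (coeff m (affForm b l ^ 0) * ((m' j : F) + 1)) := by
            ring
        _ = 0 := by rw [h5, mul_zero]
        _ = _ := by simp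
    · obtain ⟨d', rfl⟩ : ∃ d', d = d' + 1 := ⟨d - 1, by omega⟩
      rw [Nat.add_sub_cancel] at h1
      have h6 := ih d' m' hdeg
      calc ((m' j : F) + 1) * (∏ i, ((m' i).factorial : F)) * coeff m (affForm b l ^ (d' + 1))
          = (∏ i, ((m' i).factorial : F)) *
              (coeff m (affForm b l ^ (d' + 1)) * ((m' j : F) + 1)) := by ring
        _ = ((d' + 1 : ℕ) : F) * l j *
              ((∏ i, ((m' i).factorial : F)) * coeff m' (affForm b l ^ d')) := by
            rw [← h1]; ring
        _ = _ := by
            rw [h6, Nat.succ_descFactorial_succ, Nat.succ_sub_succ]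
            push_cast
            ring

/-- Low cones: the box below the chosen monomial has at most `s (d + 1)` points. -/
theorem exists_low_cone [CharZero F] {K s d : ℕ} (a b : Fin s → F) (l : Fin s → Fin K → F)
    (g : MvPolynomial (Fin K) F) (hgdef : g = ∑ i, C (a i) * affForm (b i) (l i) ^ d)
    (hg : g ≠ 0) : ∃ e : Fin K →₀ ℕ, coeff e g ≠ 0 ∧ g.totalDegree = e.degree ∧
      ∏ j, (e j + 1) ≤ s * (d + 1) := by
  classical
  set D := g.totalDegree with hD
  -- the formula for the coefficients
  have hcoef : ∀ m : Fin K →₀ ℕ, m.degree = D →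
      (∏ j, ((m j).factorial : F)) * coeff m g =
        ∑ i, a i * ((d.descFactorial D : F) * b i ^ (d - D)) * ∏ j, l i j ^ m j := by
    intro m hm
    rw [hgdef, coeff_sum, Finset.mul_sum]
    apply Finset.sum_congr rfl
    intro i _
    rw [coeff_C_mul, mul_left_comm, coeff_pow_affForm (b i) (l i) D d m hm]
    ring
  have hfac : ∀ m : Fin K →₀ ℕ, (∏ j, ((m j).factorial : F)) ≠ 0 := by
    intro m
    rw [Finset.prod_ne_zero_iff]
    intro j _
    exact_mod_cast (Nat.factorial_ne_zero (m j))
  -- the choice of `e`
  have hne : (g.support.filter fun m => m.degree = D).Nonempty := by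
    obtain ⟨m, hm, hm2⟩ := Finset.exists_mem_eq_sup g.support (by
      rwa [Finset.nonempty_iff_ne_empty, ne_eq, support_eq_empty]) fun m => m.degree
    refine ⟨m, Finset.mem_filter.2 ⟨hm, ?_⟩⟩
    rw [hD, totalDegree, ← hm2]
    rfl
  obtain ⟨e, he, hmax⟩ := Finset.exists_max_image _ (fun m : Fin K →₀ ℕ => toLex m) hne
  rw [Finset.mem_filter, mem_support_iff] at he
  refine ⟨e, he.1, he.2.symm, ?_⟩
  have hDd : D ≤ d := by
    rw [hD, hgdef]
    refine totalDegree_finsetSum_le fun i _ => ?_
    refine (totalDegree_mul _ _).trans ?_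
    rw [totalDegree_C, zero_add]
    refine (totalDegree_pow _ _).trans ?_
    have : (affForm (b i) (l i)).totalDegree ≤ 1 := by
      rw [affForm]
      refine (totalDegree_add _ _).trans (max_le (by simp) ?_)
      refine totalDegree_finsetSum_le fun j _ => ?_
      refine (totalDegree_mul _ _).trans ?_
      simp
    calc d * (affForm (b i) (l i)).totalDegree ≤ d * 1 := Nat.mul_le_mul_left _ this
      _ = d := mul_one d
  -- each layer of the box has at most `s` points
  have hlayer : ∀ k, ((Finset.Iic e).filter fun α => α.degree = k).card ≤ s := by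
    intro k
    set A := (Finset.Iic e).filter fun α => α.degree = k with hA
    have hli : LinearIndependent F (fun α : A => (fun i => ∏ j, l i j ^ (α : Fin K →₀ ℕ) j :
        Fin s → F)) := by
      rw [Fintype.linearIndependent_iff]
      intro q hq
      by_contra hcon
      push Not at hcon
      have hne2 : (Finset.univ.filter fun α : A => q α ≠ 0).Nonempty := by
        obtain ⟨α, hα⟩ := hcon
        exact ⟨α, Finset.mem_filter.2 ⟨Finset.mem_univ _, hα⟩⟩
      obtain ⟨α₀, hα₀, hmin⟩ := Finset.exists_min_image _
        (fun α : A => toLex (α : Fin K →₀ ℕ)) hne2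
      rw [Finset.mem_filter] at hα₀
      have hα₀e : (α₀ : Fin K →₀ ℕ) ≤ e := Finset.mem_Iic.1 (Finset.mem_filter.1 α₀.2).1
      set β := e - (α₀ : Fin K →₀ ℕ) with hβ
      have hβe : (α₀ : Fin K →₀ ℕ) + β = e := by
        rw [hβ, add_tsub_cancel_of_le hα₀e]
      have hβdeg : ∀ α : A, ((α : Fin K →₀ ℕ) + β).degree = D := by
        intro α
        have h1 := congrArg Finsupp.degree hβe
        rw [map_add, (Finset.mem_filter.1 α₀.2).2, he.2] at h1
        rw [map_add, (Finset.mem_filter.1 α.2).2, h1]
      have hzero : ∑ α : A, q α * ((∏ j, ((((α : Fin K →₀ ℕ) + β) j).factorial : F)) *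
          coeff ((α : Fin K →₀ ℕ) + β) g) = 0 := by
        have h1 : ∀ α : A, q α * ((∏ j, ((((α : Fin K →₀ ℕ) + β) j).factorial : F)) *
            coeff ((α : Fin K →₀ ℕ) + β) g) =
            ∑ i, a i * ((d.descFactorial D : F) * b i ^ (d - D)) * (∏ j, l i j ^ β j) *
              (q α * ∏ j, l i j ^ (α : Fin K →₀ ℕ) j) := by
          intro α
          rw [hcoef _ (hβdeg α), Finset.mul_sum]
          apply Finset.sum_congr rfl
          intro i _
          simp only [Finsupp.add_apply, pow_add, Finset.prod_mul_distrib]
          ring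
        rw [Finset.sum_congr rfl fun α _ => h1 α, Finset.sum_comm]
        apply Finset.sum_eq_zero
        intro i _
        rw [← Finset.mul_sum]
        have h2 := congrFun hq i
        rw [Finset.sum_apply] at h2
        simp only [Pi.smul_apply, smul_eq_mul, Pi.zero_apply] at h2
        rw [h2, mul_zero]
      rw [Finset.sum_eq_single α₀] at hzero
      · rw [hβe] at hzero
        exact (mul_ne_zero hα₀.2 (mul_ne_zero (hfac e) he.1)) hzero
      · intro α _ hα
        by_cases hqα : q α = 0
        · rw [hqα, zero_mul]
        · have hlt : toLex (α₀ : Fin K →₀ ℕ) < toLex (α : Fin K →₀ ℕ) := by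
            refine lt_of_le_of_ne (hmin α (Finset.mem_filter.2 ⟨Finset.mem_univ _, hqα⟩)) ?_
            intro h
            exact hα (Subtype.ext (toLex.injective h)).symm
          have hc : coeff ((α : Fin K →₀ ℕ) + β) g = 0 := by
            by_contra hc
            have h1 := hmax ((α : Fin K →₀ ℕ) + β)
              (Finset.mem_filter.2 ⟨mem_support_iff.2 hc, hβdeg α⟩)
            rw [← hβe] at h1
            have h2 : toLex (α : Fin K →₀ ℕ) + toLex β ≤ toLex (α₀ : Fin K →₀ ℕ) + toLex β := h1
            exact absurd (le_of_add_le_add_right h2) (not_le.2 hlt)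
          rw [hc, mul_zero, mul_zero]
      · intro h
        exact absurd (Finset.mem_univ _) h
    have h1 := hli.fintype_card_le_finrank
    rw [Module.finrank_fin_fun, Fintype.card_coe] at h1
    exact h1
  -- the box
  have hbox : (Finset.Iic e).card = ∏ j, (e j + 1) := by
    rw [Finsupp.card_Iic]
    have h1 : ∀ j, (Finset.Iic (e j)).card = e j + 1 := fun j => Nat.card_Iic _
    rw [Finset.prod_congr rfl fun j _ => h1 j]
    apply Finset.prod_subset (Finset.subset_univ _)
    intro j _ hj
    rw [Finsupp.notMem_support_iff.1 hj, zero_add]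
  rw [← hbox, Finset.card_eq_sum_card_fiberwise (f := fun α : Fin K →₀ ℕ => α.degree)
    (t := Finset.range (d + 1))]
  · calc ∑ k ∈ Finset.range (d + 1), ((Finset.Iic e).filter fun α => α.degree = k).card
        ≤ ∑ _k ∈ Finset.range (d + 1), s := Finset.sum_le_sum fun k _ => hlayer k
      _ = s * (d + 1) := by rw [Finset.sum_const, Finset.card_range, smul_eq_mul, mul_comm]
  · intro α hα
    have h1 : α ≤ e := Finset.mem_Iic.1 hα
    have h2 : α.degree ≤ e.degree := by
      obtain ⟨γ, rfl⟩ := exists_add_of_le h1
      rw [map_add]; omega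
    rw [he.2] at h2
    exact Finset.mem_coe.2 (Finset.mem_range.2 (by
      change α.degree < d + 1
      omega))

/-- A nonzero sum of `s` powers of affine forms does not vanish at some point of small volume. -/
theorem exists_small_point [CharZero F] {K s d : ℕ} (a b : Fin s → F) (l : Fin s → Fin K → F)
    (g : MvPolynomial (Fin K) F) (hgdef : g = ∑ i, C (a i) * affForm (b i) (l i) ^ d)
    (hg : g ≠ 0) : ∃ y : Fin K → ℕ, ∏ j, (y j + 1) ≤ s * (d + 1) ∧
      eval (fun j => (y j : F)) g ≠ 0 := by
  classical
  obtain ⟨e, he, hdeg, hprod⟩ := exists_low_cone a b l g hgdef hg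
  obtain ⟨x, hx, hx2⟩ := combinatorial_nullstellensatz_exists_eval_nonzero g e he hdeg
    (fun j => (Finset.range (e j + 1)).image (fun t : ℕ => (t : F))) (fun j => by
      rw [Finset.card_image_of_injective _ Nat.cast_injective, Finset.card_range]
      exact Nat.lt_succ_self _)
  choose y hy using fun j => Finset.mem_image.1 (hx j)
  refine ⟨y, le_trans (Finset.prod_le_prod' fun j _ => ?_) hprod, ?_⟩
  · have := Finset.mem_range.1 (hy j).1
    omega
  · have : (fun j => (y j : F)) = x := funext fun j => (hy j).2
    rw [this]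
    exact hx2

end TH22.Wp
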