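import Mathlib

set_option autoImplicit false

namespace TH22.Wp

open Module

variable {F E : Type*} [Field F] [AddCommGroup E] [Module F E]

/-- `T` is a set of nonzero pairwise non-proportional linear forms with nonzero coefficients `c`. -/
structure Good (T : Finset (Dual F E)) (c : Dual F E → F) : Prop where
  ne : ∀ φ ∈ T, φ ≠ 0
  indep : ∀ φ ∈ T, ∀ ψ ∈ T, φ ≠ ψ → ∃ v, φ v = 0 ∧ ψ v ≠ 0
  coef : ∀ φ ∈ T, c φ ≠ 0

/-- The sum `∑ c φ ^ d` over `T` vanishes identically. -/
def Rel (d : ℕ) (T : Finset (Dual F E)) (c : Dual F E → F) : Prop :=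
  ∀ x, ∑ φ ∈ T, c φ * φ x ^ d = 0

/-- Subsets of given size of a finite set that are linearly independent. -/
theorem exists_indep_subset {V : Type*} [AddCommGroup V] [Module F V] (T : Finset V) (k : ℕ)
    (hk : k ≤ finrank F (Submodule.span F (T : Set V))) :
    ∃ B : Finset V, B ⊆ T ∧ B.card = k ∧ LinearIndependent F ((↑) : B → V) := by
  classical
  obtain ⟨b, hbT, hspan, hli⟩ := exists_linearIndependent F (T : Set V)
  have hfin : b.Finite := T.finite_toSet.subset hbT
  have hcard : hfin.toFinset.card = finrank F (Submodule.span F (T : Set V)) := by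
    rw [← hspan]
    have : Fintype b := hfin.fintype
    rw [finrank_span_set_eq_card (s := b) hli]
    congr 1
    ext x
    simp
  obtain ⟨B, hB, hBk⟩ := Finset.exists_subset_card_eq (hk.trans_eq hcard.symm)
  refine ⟨B, ?_, hBk, ?_⟩
  · intro x hx
    have := hB hx
    rw [Set.Finite.mem_toFinset] at this
    exact_mod_cast hbT this
  · have h1 : (B : Set V) ⊆ b := by
      intro x hx
      have := hB hx
      rwa [Set.Finite.mem_toFinset] at this
    exact hli.comp (Set.inclusion h1) (Set.inclusion_injective h1)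

/-- The derivative of a relation in the direction `v`. -/
theorem Rel.deriv [CharZero F] {d : ℕ} {T : Finset (Dual F E)} {c : Dual F E → F}
    (h : Rel (d + 1) T c) (v : E) : Rel d T (fun φ => c φ * φ v) := by
  classical
  intro x
  have hinf : Infinite F := inferInstance
  set p : Polynomial F := ∑ φ ∈ T, Polynomial.C (c φ) *
    (Polynomial.C (φ x) + Polynomial.C (φ v) * Polynomial.X) ^ (d + 1) with hp
  have hp0 : p = 0 := by
    apply Polynomial.funext
    intro t
    rw [hp]
    simp only [Polynomial.eval_finsetSum, Polynomial.eval_mul, Polynomial.eval_C,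
      Polynomial.eval_pow, Polynomial.eval_add, Polynomial.eval_X, Polynomial.eval_zero]
    have := h (x + t • v)
    rw [← this]
    apply Finset.sum_congr rfl
    intro φ _
    rw [map_add, map_smul, smul_eq_mul, mul_comm t]
  have h2 : (Polynomial.derivative p).eval 0 = 0 := by rw [hp0]; simp
  rw [hp] at h2
  simp only [Polynomial.derivative_sum, Polynomial.derivative_mul, Polynomial.derivative_C,
    zero_mul, zero_add, Polynomial.derivative_pow, Polynomial.derivative_add,
    Polynomial.derivative_X, mul_one, Polynomial.eval_finsetSum, Polynomial.eval_mul,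
    Polynomial.eval_C, Polynomial.eval_pow, Polynomial.eval_add, Polynomial.eval_X, mul_zero,
    add_zero, Nat.add_sub_cancel] at h2
  have h3 : ((d : F) + 1) * ∑ φ ∈ T, c φ * φ v * φ x ^ d = 0 := by
    rw [Finset.mul_sum, ← h2]
    apply Finset.sum_congr rfl
    intro φ _
    push_cast
    ring
  rcases mul_eq_zero.1 h3 with h4 | h4
  · exact absurd h4 (by exact_mod_cast Nat.succ_ne_zero d)
  · exact h4

theorem Rel.filter_deriv [CharZero F] {d : ℕ} {T : Finset (Dual F E)}
    {c : Dual F E → F} (h : Rel (d + 1) T c) (v : E) [DecidablePred fun φ : Dual F E => φ v ≠ 0] :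
    Rel d (T.filter fun φ => φ v ≠ 0) (fun φ => c φ * φ v) := by
  intro x
  have h0 := h.deriv v x
  rw [Finset.sum_filter]
  refine Eq.trans ?_ h0
  apply Finset.sum_congr rfl
  intro φ _
  split_ifs with h1
  · rfl
  · push Not at h1
    simp only [h1]; ring

theorem Good.filter {T : Finset (Dual F E)} {c : Dual F E → F} (h : Good T c)
    (v : E) [DecidablePred fun φ : Dual F E => φ v ≠ 0] :
    Good (T.filter fun φ => φ v ≠ 0) (fun φ => c φ * φ v) := by
  refine ⟨fun φ hφ => h.ne φ (Finset.mem_filter.1 hφ).1, fun φ hφ ψ hψ hne =>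
    h.indep φ (Finset.mem_filter.1 hφ).1 ψ (Finset.mem_filter.1 hψ).1 hne, fun φ hφ =>
    mul_ne_zero (h.coef φ (Finset.mem_filter.1 hφ).1) (Finset.mem_filter.1 hφ).2⟩

/-- A vector on which a subspace of linear forms vanishes, but not the given form. -/
theorem exists_coannihilator [FiniteDimensional F E] (W : Submodule F (Dual F E)) (φ : Dual F E)
    (h : φ ∉ W) : ∃ x ∈ W.dualCoannihilator, φ x ≠ 0 := by
  by_contra hcon
  push Not at hcon
  apply h
  rw [← Subspace.dualCoannihilator_dualAnnihilator_eq (W := W), Submodule.mem_dualAnnihilator]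
  exact hcon

/-- The arithmetic of the recursion. -/
theorem arith {d m m₁ m₂ t₁ t₂ t : ℕ} (h1 : 1 ≤ m₁) (h2 : 1 ≤ m₂) (hm : m = m₁ + m₂)
    (ht : t₁ + t₂ ≤ t) (ha : 2 * m₁ * d + 3 * m₁ + 2 ≤ 2 * t₁ + m₁ * m₁)
    (hb : 2 * m₂ * d + 3 * m₂ + 2 ≤ 2 * t₂ + m₂ * m₂) :
    2 * m * (d + 1) + 3 * m + 2 ≤ 2 * t + m * m := by
  subst hm
  obtain ⟨a, rfl⟩ := Nat.exists_eq_add_of_le h1
  obtain ⟨b, rfl⟩ := Nat.exists_eq_add_of_le h2
  nlinarith [Nat.zero_le (a * b)]

/-- **The rank bound for power identities.** -/
theorem card_bound [CharZero F] [FiniteDimensional F E] (d : ℕ) : ∀ (m : ℕ), 1 ≤ m →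
    ∀ (T : Finset (Dual F E)) (c : Dual F E → F), Good T c → Rel d T c → T.Nonempty →
    2 * m ≤ finrank F (Submodule.span F (T : Set (Dual F E))) + 1 →
    2 * m * d + 3 * m + 2 ≤ 2 * T.card + m * m := by
  classical
  induction d with
  | zero =>
    intro m hm T c hg hr hT hrank
    have h1 : finrank F (Submodule.span F (T : Set (Dual F E))) ≤ T.card :=
      finrank_span_finset_le_card T
    have h2 : 2 ≤ T.card := by
      by_contra hlt
      have hc : T.card = 1 := by
        have := Finset.card_pos.2 hT
        omega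
      obtain ⟨φ, rfl⟩ := Finset.card_eq_one.1 hc
      have := hr 0
      simp only [Finset.sum_singleton, pow_zero, mul_one] at this
      exact hg.coef φ (Finset.mem_singleton_self φ) this
    obtain ⟨k, rfl⟩ := Nat.exists_eq_add_of_le hm
    nlinarith [Nat.zero_le (k * k)]
  | succ d ih =>
    intro m hm T c hg hr hT hrank
    rcases Nat.lt_or_ge 1 m with hm2 | hm1
    · -- the case `m ≥ 2`
      obtain ⟨B, hBT, hBk, hBli⟩ := exists_indep_subset (F := F) T (2 * m - 2) (by omega)
      have hBrank : finrank F (Submodule.span F (B : Set (Dual F E))) = 2 * m - 2 := by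
        rw [finrank_span_finset_eq_card hBli, hBk]
      obtain ⟨β, hβT, hβ⟩ : ∃ β ∈ T, β ∉ Submodule.span F (B : Set (Dual F E)) := by
        by_contra hcon
        push Not at hcon
        have : Submodule.span F (T : Set (Dual F E)) ≤ Submodule.span F (B : Set (Dual F E)) :=
          Submodule.span_le.2 hcon
        have := Submodule.finrank_mono this
        omega
      obtain ⟨v, hv, hβv⟩ := exists_coannihilator _ β hβ
      rw [Submodule.mem_dualCoannihilator] at hv
      set T₁ := T.filter fun φ => φ v ≠ 0 with hT₁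
      have hT₁ne : T₁.Nonempty := ⟨β, Finset.mem_filter.2 ⟨hβT, hβv⟩⟩
      have hT₁g := hg.filter v
      have hT₁r := hr.filter_deriv v
      have hBT₁ : Disjoint B T₁ := by
        rw [Finset.disjoint_left]
        intro φ hφ hφ1
        exact (Finset.mem_filter.1 hφ1).2 (hv φ (Submodule.subset_span hφ))
      have hcard : (2 * m - 2) + T₁.card ≤ T.card := by
        rw [← hBk, ← Finset.card_union_of_disjoint hBT₁]
        exact Finset.card_le_card (Finset.union_subset hBT (Finset.filter_subset _ _))
      rcases Nat.lt_or_ge (finrank F (Submodule.span F (T₁ : Set (Dual F E))) + 1) (2 * m) with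
        hlt | hge
      · -- the rank drops
        set W := Submodule.span F (T₁ : Set (Dual F E)) with hW
        set T₂ := T.filter fun φ => φ ∉ W with hT₂
        have hspan : Submodule.span F (T : Set (Dual F E)) ≤
            W ⊔ Submodule.span F (T₂ : Set (Dual F E)) := by
          rw [Submodule.span_le]
          intro φ hφ
          by_cases hφW : φ ∈ W
          · exact Submodule.mem_sup_left hφW
          · exact Submodule.mem_sup_right (Submodule.subset_span
              (Finset.mem_coe.2 (Finset.mem_filter.2 ⟨hφ, hφW⟩)))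
        have hsum : finrank F (Submodule.span F (T : Set (Dual F E))) ≤
            finrank F W + finrank F (Submodule.span F (T₂ : Set (Dual F E))) :=
          (Submodule.finrank_mono hspan).trans (Submodule.finrank_add_le_finrank_add_finrank _ _)
        have hT₂ne : T₂.Nonempty := by
          rw [Finset.nonempty_iff_ne_empty]
          intro h0
          rw [h0, Finset.coe_empty, Submodule.span_empty, finrank_bot] at hsum
          omega
        obtain ⟨w, hw, hwT₂⟩ := Module.Dual.exists_forall_mem_ne_zero_of_forall_exists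
          W.dualCoannihilator (fun φ : T₂ => (φ : Dual F E))
          (fun φ => exists_coannihilator W φ (Finset.mem_filter.1 φ.2).2)
        rw [Submodule.mem_dualCoannihilator] at hw
        have hT₂eq : (T.filter fun φ => φ w ≠ 0) = T₂ := by
          ext φ
          rw [Finset.mem_filter, Finset.mem_filter]
          constructor
          · rintro ⟨h1, h2⟩
            exact ⟨h1, fun h3 => h2 (hw φ h3)⟩
          · rintro ⟨h1, h2⟩
            exact ⟨h1, hwT₂ ⟨φ, Finset.mem_filter.2 ⟨h1, h2⟩⟩⟩
        have hT₂g := hg.filter w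
        have hT₂r := hr.filter_deriv w
        rw [hT₂eq] at hT₂g hT₂r
        have hdisj : Disjoint T₁ T₂ := by
          rw [Finset.disjoint_left]
          intro φ hφ1 hφ2
          exact (Finset.mem_filter.1 hφ2).2 (Submodule.subset_span hφ1)
        have hcard2 : T₁.card + T₂.card ≤ T.card := by
          rw [← Finset.card_union_of_disjoint hdisj]
          exact Finset.card_le_card (Finset.union_subset (Finset.filter_subset _ _)
            (Finset.filter_subset _ _))
        have ha : 1 ≤ finrank F W := by
          obtain ⟨φ, hφ⟩ := hT₁ne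
          rw [Nat.one_le_iff_ne_zero]
          intro h0
          rw [Submodule.finrank_eq_zero] at h0
          have : φ ∈ W := Submodule.subset_span hφ
          rw [h0, Submodule.mem_bot] at this
          exact hT₁g.ne φ hφ this
        have hb : 1 ≤ finrank F (Submodule.span F (T₂ : Set (Dual F E))) := by
          obtain ⟨φ, hφ⟩ := hT₂ne
          rw [Nat.one_le_iff_ne_zero]
          intro h0
          rw [Submodule.finrank_eq_zero] at h0
          have : φ ∈ Submodule.span F (T₂ : Set (Dual F E)) := Submodule.subset_span hφ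
          rw [h0, Submodule.mem_bot] at this
          exact hT₂g.ne φ hφ this
        obtain ⟨m₁, m₂, h1, h2, h3, h4, h5⟩ : ∃ m₁ m₂, 1 ≤ m₁ ∧ 1 ≤ m₂ ∧ m = m₁ + m₂ ∧
            2 * m₁ ≤ finrank F W + 1 ∧
            2 * m₂ ≤ finrank F (Submodule.span F (T₂ : Set (Dual F E))) + 1 := by
          rcases Nat.lt_or_ge (m - 1) ((finrank F W + 1) / 2) with h | h
          · exact ⟨m - 1, 1, by omega, le_rfl, by omega, by omega, by omega⟩
          · exact ⟨(finrank F W + 1) / 2, m - (finrank F W + 1) / 2, by omega, by omega,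
              by omega, by omega, by omega⟩
        exact arith h1 h2 h3 hcard2 (ih m₁ h1 T₁ _ hT₁g hT₁r hT₁ne h4)
          (ih m₂ h2 T₂ _ hT₂g hT₂r hT₂ne h5)
      · have h1 := ih m hm T₁ _ hT₁g hT₁r hT₁ne hge
        obtain ⟨k, rfl⟩ := Nat.exists_eq_add_of_le hm2
        have h2 : 2 * (1 + 1 + k) - 2 = 2 * k + 2 := by omega
        rw [h2] at hcard
        nlinarith
    · -- the case `m = 1`
      have hm' : m = 1 := le_antisymm hm1 hm
      subst hm'
      obtain ⟨φ₀, hφ₀⟩ := hT
      obtain ⟨φ₁, hφ₁, hne⟩ : ∃ φ₁ ∈ T, φ₀ ≠ φ₁ := by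
        by_contra hcon
        push Not at hcon
        have hT1 : T = {φ₀} := by
          ext φ
          rw [Finset.mem_singleton]
          exact ⟨fun h => (hcon φ h).symm, fun h => h ▸ hφ₀⟩
        apply hg.ne φ₀ hφ₀
        ext x
        have := hr x
        rw [hT1, Finset.sum_singleton] at this
        rcases mul_eq_zero.1 this with h | h
        · exact absurd h (hg.coef φ₀ hφ₀)
        · simpa using pow_eq_zero_iff (Nat.succ_ne_zero d) |>.1 h
      obtain ⟨v, hv0, hv1⟩ := hg.indep φ₀ hφ₀ φ₁ hφ₁ hne
      have hT₁ne : (T.filter fun φ => φ v ≠ 0).Nonempty := ⟨φ₁, Finset.mem_filter.2 ⟨hφ₁, hv1⟩⟩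
      have hcard : (T.filter fun φ => φ v ≠ 0).card + 1 ≤ T.card := by
        have : (T.filter fun φ => φ v ≠ 0) ⊂ T := by
          rw [Finset.filter_ssubset]
          exact ⟨φ₀, hφ₀, by simpa using hv0⟩
        exact Finset.card_lt_card this
      have hrk : 2 * 1 ≤ finrank F (Submodule.span F
          ((T.filter fun φ => φ v ≠ 0 : Finset (Dual F E)) : Set (Dual F E))) + 1 := by
        have : finrank F (Submodule.span F
          ((T.filter fun φ => φ v ≠ 0 : Finset (Dual F E)) : Set (Dual F E))) ≠ 0 := by
          intro h0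
          rw [Submodule.finrank_eq_zero] at h0
          have : φ₁ ∈ Submodule.span F
            ((T.filter fun φ => φ v ≠ 0 : Finset (Dual F E)) : Set (Dual F E)) :=
            Submodule.subset_span (Finset.mem_coe.2 (Finset.mem_filter.2 ⟨hφ₁, hv1⟩))
          rw [h0, Submodule.mem_bot] at this
          exact hg.ne φ₁ hφ₁ this
        omega
      have := ih 1 le_rfl _ _ (hg.filter v) (hr.filter_deriv v) hT₁ne hrk
      omega

/-- A power identity with `2 |T| ≤ m d`, `m ≤ d + 3`, has rank at most `2 m - 2`. -/
theorem rank_bound [CharZero F] [FiniteDimensional F E] {d m : ℕ} (hm : 1 ≤ m) (hmd : m ≤ d + 3)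
    (T : Finset (Dual F E)) (c : Dual F E → F) (hg : Good T c) (hr : Rel d T c)
    (hT : T.Nonempty) (hs : 2 * T.card ≤ m * d) :
    finrank F (Submodule.span F (T : Set (Dual F E))) + 2 ≤ 2 * m := by
  by_contra hcon
  have h1 := card_bound d m hm T c hg hr hT (by omega)
  obtain ⟨k, hk⟩ := Nat.exists_eq_add_of_le hmd
  have : m * m ≤ m * (d + 3) := Nat.mul_le_mul_left _ hmd
  nlinarith

end TH22.Wp
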