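import Mathlib

set_option autoImplicit false

namespace TH22.Wp

open Polynomial Module

variable {F : Type*} [Field F]

/-- If all Hasse derivatives of order `< K` of `P` vanish at `z` then `(X - z)^K` divides `P`. -/
theorem dvd_of_hasse (K : ℕ) (P : F[X]) (z : F)
    (h : ∀ j < K, (hasseDeriv j P).eval z = 0) : (X - C z) ^ K ∣ P := by
  have h1 : X ^ K ∣ taylor z P := by
    rw [X_pow_dvd_iff]
    intro d hd
    rw [taylor_coeff]
    exact h d hd
  obtain ⟨Q, hQ⟩ := h1
  have h2 : taylor (-z) (taylor z P) = P := by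
    rw [taylor_taylor]; simp
  refine ⟨taylor (-z) Q, ?_⟩
  rw [← h2, hQ, taylor_mul, taylor_pow, taylor_X]
  simp [sub_eq_add_neg]

/-- The Wronskian with a fixed polynomial, as a linear map. -/
noncomputable def wr (P₁ : F[X]) : F[X] →ₗ[F] F[X] :=
  (LinearMap.mulRight F P₁).comp derivative - LinearMap.mulRight F (derivative P₁)

theorem wr_apply (P₁ P : F[X]) : wr P₁ P = derivative P * P₁ - P * derivative P₁ := by
  simp [wr]

theorem wr_ne_zero [CharZero F] (P₁ P : F[X]) (z : F) (hP : P ≠ 0) (hz : P.IsRoot z)
    (h1 : ¬ P₁.IsRoot z) : wr P₁ P ≠ 0 := by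
  intro h
  rw [wr_apply, sub_eq_zero] at h
  have hk : 0 < P.rootMultiplicity z := (rootMultiplicity_pos hP).2 hz
  have hd : derivative P ≠ 0 := by
    intro h0
    have := derivative_eq_zero.1 h0
    rw [natDegree_eq_zero] at this
    obtain ⟨c, rfl⟩ := this
    simp only [IsRoot.def, eval_C] at hz
    exact hP (by simp [hz])
  have hdvd : (X - C z) ^ P.rootMultiplicity z ∣ derivative P * P₁ := by
    rw [h]
    exact Dvd.dvd.mul_right (pow_rootMultiplicity_dvd P z) _
  have hcop : IsCoprime ((X - C z) ^ P.rootMultiplicity z) P₁ := by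
    apply IsCoprime.pow_left
    rw [(irreducible_X_sub_C z).coprime_iff_not_dvd, dvd_iff_isRoot]
    exact h1
  have h3 := hcop.dvd_of_dvd_mul_right hdvd
  rw [← le_rootMultiplicity_iff hd, derivative_rootMultiplicity_of_root hz] at h3
  omega

/-- A subspace of dimension `≤ r` of the polynomials contains a nonzero element that vanishes to
order `r` at `z` only for finitely many `z`. -/
theorem finite_bad [CharZero F] (r : ℕ) : ∀ U : Submodule F F[X], FiniteDimensional F U →
    finrank F U ≤ r → {z : F | ∃ P ∈ U, P ≠ 0 ∧ (X - C z) ^ r ∣ P}.Finite := by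
  induction r with
  | zero =>
    intro U hU hr
    have : U = ⊥ := Submodule.finrank_eq_zero.1 (Nat.le_zero.1 hr)
    subst this
    convert Set.finite_empty
    ext z
    simp only [Set.mem_ofPred_eq, Submodule.mem_bot, Set.mem_empty_iff_false, iff_false]
    rintro ⟨P, hP, h, -⟩
    exact h hP
  | succ r ih =>
    intro U hU hr
    by_cases hbot : U = ⊥
    · subst hbot
      convert Set.finite_empty
      ext z
      simp only [Set.mem_ofPred_eq, Submodule.mem_bot, Set.mem_empty_iff_false, iff_false]
      rintro ⟨P, hP, h, -⟩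
      exact h hP
    obtain ⟨P₁, hP₁, hne⟩ := Submodule.exists_mem_ne_zero_of_ne_bot hbot
    have hfd : FiniteDimensional F (U.map (wr P₁)) := inferInstance
    have hrank : finrank F (U.map (wr P₁)) ≤ r := by
      have h1 := LinearMap.finrank_range_add_finrank_ker ((wr P₁).domRestrict U)
      rw [LinearMap.range_domRestrict] at h1
      have h2 : finrank F (LinearMap.ker ((wr P₁).domRestrict U)) ≠ 0 := by
        intro h
        rw [Submodule.finrank_eq_zero] at h
        have h3 : (⟨P₁, hP₁⟩ : U) ∈ LinearMap.ker ((wr P₁).domRestrict U) := by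
          rw [LinearMap.mem_ker, LinearMap.domRestrict_apply, wr_apply]
          ring
        rw [h, Submodule.mem_bot] at h3
        exact hne (congrArg Subtype.val h3)
      omega
    have hfin := ih (U.map (wr P₁)) hfd hrank
    refine ((finite_setOfPred_isRoot hne).union hfin).subset ?_
    rintro z ⟨P, hP, hP0, hdvd⟩
    by_cases hz : P₁.IsRoot z
    · left
      exact hz
    · right
      refine ⟨wr P₁ P, Submodule.mem_map_of_mem hP, wr_ne_zero P₁ P z hP0 ?_ hz, ?_⟩
      · rw [← dvd_iff_isRoot]
        exact (dvd_pow_self _ (Nat.succ_ne_zero r)).trans hdvd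
      · rw [wr_apply]
        obtain ⟨Q, rfl⟩ := hdvd
        refine dvd_sub ?_ ?_
        · apply Dvd.dvd.mul_right
          rw [derivative_mul, derivative_X_sub_C_pow]
          refine dvd_add ?_ ?_
          · simp only [Nat.add_sub_cancel]
            exact Dvd.dvd.mul_right (Dvd.dvd.mul_left dvd_rfl _) _
          · apply Dvd.dvd.mul_right
            exact pow_dvd_pow _ (Nat.le_succ r)
        · apply Dvd.dvd.mul_right
          apply Dvd.dvd.mul_right
          exact pow_dvd_pow _ (Nat.le_succ r)

end TH22.Wp
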