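import Mathlib
import Pool.Agent.TH22.Wp.Taylor
import Pool.Agent.TH22.Wp.Rel

set_option autoImplicit false

namespace TH22.Wp

open Module

variable {F : Type*} [Field F]

/-- The coordinate `∑ j, y j * binom(m, j) * z ^ (m - j)` of the generator. -/
def coord (K : ℕ) (z : F) (y : Fin K → F) (m : ℕ) : F :=
  ∑ j : Fin K, y j * ((m.choose j : F) * z ^ (m - j))

/-- The generator, homogenized: `(y₀, y) ↦ (y₀, (coord K z y m)_m)`. -/
def gen (n K : ℕ) (z : F) : (F × (Fin K → F)) →ₗ[F] (F × (Fin n → F)) where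
  toFun Y := (Y.1, fun m => coord K z Y.2 m)
  map_add' Y Z := by
    refine Prod.ext rfl ?_
    funext m
    simp only [coord, Prod.snd_add, Pi.add_apply, add_mul, Finset.sum_add_distrib]
  map_smul' a Y := by
    refine Prod.ext rfl ?_
    funext m
    simp only [coord, Prod.smul_snd, Pi.smul_apply, smul_eq_mul, RingHom.id_apply,
      Finset.mul_sum, mul_assoc]

theorem gen_apply (n K : ℕ) (z : F) (y₀ : F) (y : Fin K → F) :
    gen n K z (y₀, y) = (y₀, fun m : Fin n => coord K z y m) := rfl

/-- The polynomial with the coefficients of a linear form. -/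
noncomputable def toPoly (n : ℕ) : Dual F (F × (Fin n → F)) →ₗ[F] Polynomial F where
  toFun φ := ∑ m : Fin n, Polynomial.C (φ (0, Pi.single m 1)) * Polynomial.X ^ (m : ℕ)
  map_add' φ ψ := by
    simp only [LinearMap.add_apply, map_add, add_mul, Finset.sum_add_distrib]
  map_smul' a φ := by
    simp only [LinearMap.smul_apply, smul_eq_mul, map_mul, RingHom.id_apply,
      Polynomial.smul_eq_C_mul, Finset.mul_sum, mul_assoc]

theorem toPoly_apply (n : ℕ) (φ : Dual F (F × (Fin n → F))) :
    toPoly n φ = ∑ m : Fin n, Polynomial.C (φ (0, Pi.single m 1)) * Polynomial.X ^ (m : ℕ) := rfl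

theorem coeff_toPoly (n : ℕ) (φ : Dual F (F × (Fin n → F))) (m : Fin n) :
    (toPoly n φ).coeff m = φ (0, Pi.single m 1) := by
  rw [toPoly_apply, Polynomial.finsetSum_coeff]
  simp only [Polynomial.coeff_C_mul, Polynomial.coeff_X_pow, mul_ite, mul_one, mul_zero]
  rw [Finset.sum_eq_single m]
  · simp
  · intro b _ hb
    rw [if_neg]
    intro h
    exact hb (Fin.ext h.symm)
  · simp

theorem form_expand (n : ℕ) (φ : Dual F (F × (Fin n → F))) (x₀ : F) (x : Fin n → F) :
    φ (x₀, x) = x₀ * φ (1, 0) + ∑ m, x m * φ (0, Pi.single m 1) := by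
  have h1 : ((x₀, x) : F × (Fin n → F)) = x₀ • ((1 : F), (0 : Fin n → F)) +
      ∑ m, x m • ((0 : F), (Pi.single m (1 : F) : Fin n → F)) := by
    refine Prod.ext ?_ ?_
    · simp [Prod.fst_sum]
    · simp only [Prod.snd_add, Prod.smul_snd, smul_zero, zero_add, Prod.snd_sum]
      funext k
      simp [Finset.sum_apply, Pi.single_apply]
  rw [h1, map_add, map_smul, map_sum]
  simp only [map_smul, smul_eq_mul]

/-- The Taylor coefficients of the polynomial of a form are the coefficients of the pull-back. -/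
theorem hasse_toPoly (n : ℕ) (φ : Dual F (F × (Fin n → F))) (z : F) (j : ℕ) :
    (Polynomial.hasseDeriv j (toPoly n φ)).eval z =
      ∑ m : Fin n, φ (0, Pi.single m 1) * (((m : ℕ).choose j : F) * z ^ ((m : ℕ) - j)) := by
  rw [toPoly_apply, map_sum, Polynomial.eval_finsetSum]
  apply Finset.sum_congr rfl
  intro m _
  rw [Polynomial.C_mul_X_pow_eq_monomial, Polynomial.hasseDeriv_monomial,
    Polynomial.eval_monomial]
  ring

theorem pullback_single (n K : ℕ) (φ : Dual F (F × (Fin n → F))) (z : F) (j : Fin K) :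
    (φ ∘ₗ gen n K z) (0, Pi.single j 1) = (Polynomial.hasseDeriv j (toPoly n φ)).eval z := by
  rw [LinearMap.comp_apply, gen_apply, form_expand, hasse_toPoly, zero_mul, zero_add]
  apply Finset.sum_congr rfl
  intro m _
  rw [mul_comm]
  congr 1
  rw [coord, Finset.sum_eq_single j]
  · simp
  · intro b _ hb
    simp [hb]
  · simp

/-- For all but finitely many `z` the pull-back is injective on a given subspace of dimension at
most `K`. -/
theorem finite_bad_gen [CharZero F] (n K : ℕ) (U : Submodule F (Dual F (F × (Fin n → F))))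
    (hU : finrank F U ≤ K) :
    {z : F | ∃ φ ∈ U, φ ≠ 0 ∧ φ ∘ₗ gen n K z = 0}.Finite := by
  have hfd : FiniteDimensional F U := inferInstance
  have h1 : finrank F (U.map (toPoly n)) ≤ K := (Submodule.finrank_map_le _ _).trans hU
  refine (finite_bad K (U.map (toPoly n)) inferInstance h1).subset ?_
  rintro z ⟨φ, hφ, hφ0, h⟩
  refine ⟨toPoly n φ, Submodule.mem_map_of_mem hφ, ?_, ?_⟩
  · intro h0
    apply hφ0
    have h2 : φ (1, 0) = 0 := by
      have := congrArg (fun ψ => ψ ((1 : F), (0 : Fin K → F))) h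
      simp only [LinearMap.comp_apply, gen_apply, LinearMap.zero_apply] at this
      rw [← this]
      congr 2
      funext m
      simp [coord]
    apply LinearMap.ext
    rintro ⟨x₀, x⟩
    rw [form_expand, h2, mul_zero, zero_add, LinearMap.zero_apply]
    apply Finset.sum_eq_zero
    intro m _
    rw [← coeff_toPoly, h0, Polynomial.coeff_zero, mul_zero]
  · apply dvd_of_hasse
    intro j hj
    have := pullback_single n K φ z ⟨j, hj⟩
    rw [h] at this
    exact this.symm

/-- Relations among affine forms are relations among linear forms. -/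
theorem rel_of_affine [CharZero F] {k d : ℕ} {ι : Type*} (T : Finset ι) (c : ι → F)
    (ψ : ι → Dual F (F × (Fin k → F))) (h : ∀ y : Fin k → F, ∑ i ∈ T, c i * ψ i (1, y) ^ d = 0) :
    ∀ Y, ∑ i ∈ T, c i * ψ i Y ^ d = 0 := by
  have hinf : Infinite F := inferInstance
  have h1 : ∀ (y₀ : F) (y : Fin k → F), y₀ ≠ 0 → ∑ i ∈ T, c i * ψ i (y₀, y) ^ d = 0 := by
    intro y₀ y hy
    have h2 : ∀ i, ψ i (y₀, y) = y₀ * ψ i (1, y₀⁻¹ • y) := by
      intro i
      rw [← smul_eq_mul, ← map_smul]
      congr 1
      refine Prod.ext ?_ ?_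
      · simp
      · simp [smul_smul, hy]
    have h3 := h (y₀⁻¹ • y)
    calc ∑ i ∈ T, c i * ψ i (y₀, y) ^ d = y₀ ^ d * ∑ i ∈ T, c i * ψ i (1, y₀⁻¹ • y) ^ d := by
          rw [Finset.mul_sum]
          apply Finset.sum_congr rfl
          intro i _
          rw [h2 i, mul_pow]
          ring
      _ = 0 := by rw [h3, mul_zero]
  rintro ⟨y₀, y⟩
  set p : Polynomial F := ∑ i ∈ T, Polynomial.C (c i) *
    (Polynomial.C (ψ i (0, y)) + Polynomial.C (ψ i (1, 0)) * Polynomial.X) ^ d with hp
  have hev : ∀ t : F, p.eval t = ∑ i ∈ T, c i * ψ i (t, y) ^ d := by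
    intro t
    rw [hp]
    simp only [Polynomial.eval_finsetSum, Polynomial.eval_mul, Polynomial.eval_C,
      Polynomial.eval_pow, Polynomial.eval_add, Polynomial.eval_X]
    apply Finset.sum_congr rfl
    intro i _
    have : ψ i (t, y) = ψ i (0, y) + ψ i (1, 0) * t := by
      rw [mul_comm, ← smul_eq_mul, ← map_smul, ← map_add]
      congr 1
      refine Prod.ext ?_ ?_ <;> simp
    rw [this]
  have hp0 : p = 0 := by
    apply Polynomial.eq_zero_of_infinite_isRoot
    refine (Set.Infinite.mono ?_ (Set.finite_singleton (0 : F)).infinite_compl)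
    intro t ht
    change p.IsRoot t
    rw [Polynomial.IsRoot.def, hev t]
    exact h1 t y ht
  rw [← hev y₀, hp0, Polynomial.eval_zero]

end TH22.Wp
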