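import Mathlib
import Pool.Agent.TH22.Wp.Gen

set_option autoImplicit false

namespace TH22.Wp

open Module

variable {F : Type*} [Field F]

section transport

variable {E E' : Type*} [AddCommGroup E] [Module F E] [AddCommGroup E'] [Module F E']

/-- A good set is transported to a good set by a pull-back that is injective on the planes spanned
by two of its elements. -/
theorem Good.transport [FiniteDimensional F E'] {T : Finset (Dual F E)} {c : Dual F E → F}
    (hg : Good T c) (G : E' →ₗ[F] E)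
    (hG : ∀ φ ∈ T, ∀ ψ ∈ T, ∀ χ ∈ Submodule.span F ({φ, ψ} : Set (Dual F E)), χ ∘ₗ G = 0 → χ = 0) :
    ∃ (T' : Finset (Dual F E')) (c' : Dual F E' → F), Good T' c' ∧ T'.card = T.card ∧
      (∀ φ ∈ T, φ ∘ₗ G ∈ T') ∧
      ∀ (d : ℕ) (Y : E'), ∑ ψ ∈ T', c' ψ * ψ Y ^ d = ∑ φ ∈ T, c φ * φ (G Y) ^ d := by
  classical
  have hinj : Set.InjOn (fun φ : Dual F E => φ ∘ₗ G) T := by
    intro φ hφ ψ hψ h
    have h1 : φ - ψ = 0 := by
      apply hG φ hφ ψ hψ
      · exact Submodule.sub_mem _ (Submodule.subset_span (by simp))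
          (Submodule.subset_span (by simp))
      · simp only at h
        rw [LinearMap.sub_comp, h, sub_self]
    exact sub_eq_zero.1 h1
  set T' := T.image (fun φ : Dual F E => φ ∘ₗ G) with hT'
  set c' : Dual F E' → F := fun ψ => ∑ φ ∈ T.filter (fun φ => φ ∘ₗ G = ψ), c φ with hc'
  have hc : ∀ φ ∈ T, c' (φ ∘ₗ G) = c φ := by
    intro φ hφ
    rw [hc']
    have : T.filter (fun χ => χ ∘ₗ G = φ ∘ₗ G) = {φ} := by
      ext χ
      rw [Finset.mem_filter, Finset.mem_singleton]
      constructor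
      · rintro ⟨h1, h2⟩
        exact hinj h1 hφ h2
      · rintro rfl
        exact ⟨hφ, rfl⟩
    simp only [this, Finset.sum_singleton]
  refine ⟨T', c', ⟨?_, ?_, ?_⟩, Finset.card_image_of_injOn hinj,
    fun φ hφ => Finset.mem_image_of_mem _ hφ, ?_⟩
  · intro ψ hψ
    obtain ⟨φ, hφ, rfl⟩ := Finset.mem_image.1 hψ
    intro h0
    exact hg.ne φ hφ (hG φ hφ φ hφ φ (Submodule.subset_span (by simp)) h0)
  · intro ψ₁ hψ₁ ψ₂ hψ₂ hne
    obtain ⟨φ₁, hφ₁, rfl⟩ := Finset.mem_image.1 hψ₁
    obtain ⟨φ₂, hφ₂, rfl⟩ := Finset.mem_image.1 hψ₂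
    have hne' : φ₁ ≠ φ₂ := fun h => hne (by rw [h])
    have hnot : (φ₂ ∘ₗ G) ∉ Submodule.span F ({φ₁ ∘ₗ G} : Set (Dual F E')) := by
      intro hmem
      obtain ⟨a, ha⟩ := Submodule.mem_span_singleton.1 hmem
      have h1 : φ₂ - a • φ₁ = 0 := by
        apply hG φ₁ hφ₁ φ₂ hφ₂
        · exact Submodule.sub_mem _ (Submodule.subset_span (by simp))
            (Submodule.smul_mem _ _ (Submodule.subset_span (by simp)))
        · rw [LinearMap.sub_comp, LinearMap.smul_comp, ha, sub_self]
      obtain ⟨v, hv1, hv2⟩ := hg.indep φ₁ hφ₁ φ₂ hφ₂ hne'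
      apply hv2
      rw [sub_eq_zero.1 h1, LinearMap.smul_apply, hv1, smul_zero]
    obtain ⟨x, hx, hx2⟩ := exists_coannihilator _ _ hnot
    rw [Submodule.mem_dualCoannihilator] at hx
    exact ⟨x, hx _ (Submodule.subset_span (by simp)), hx2⟩
  · intro ψ hψ
    obtain ⟨φ, hφ, rfl⟩ := Finset.mem_image.1 hψ
    rw [hc φ hφ]
    exact hg.coef φ hφ
  · intro d Y
    rw [hT', Finset.sum_image hinj]
    apply Finset.sum_congr rfl
    intro φ hφ
    rw [hc φ hφ, LinearMap.comp_apply]

/-- If the pull-back is injective on a subspace of forms, then every point has the same values of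
these forms as some point in the image. -/
theorem exists_preimage [FiniteDimensional F E] (G : E' →ₗ[F] E) (U : Submodule F (Dual F E))
    (hU : ∀ χ ∈ U, χ ∘ₗ G = 0 → χ = 0) (X : E) : ∃ Y : E', ∀ φ ∈ U, φ (G Y) = φ X := by
  have hX : X ∈ LinearMap.range G ⊔ U.dualCoannihilator := by
    by_contra hcon
    obtain ⟨ψ, hψX, hψ⟩ := Submodule.exists_le_ker_of_notMem hcon
    have h1 : ψ ∘ₗ G = 0 := by
      ext Y
      exact hψ (Submodule.mem_sup_left (LinearMap.mem_range_self G Y))
    have h2 : ψ ∈ U := by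
      rw [← Subspace.dualCoannihilator_dualAnnihilator_eq (W := U), Submodule.mem_dualAnnihilator]
      intro w hw
      exact hψ (Submodule.mem_sup_right hw)
    have h3 := hU ψ h2 h1
    rw [h3] at hψX
    exact hψX rfl
  obtain ⟨R, hR, w, hw, rfl⟩ := Submodule.mem_sup.1 hX
  obtain ⟨Y, rfl⟩ := hR
  refine ⟨Y, fun φ hφ => ?_⟩
  rw [map_add]
  rw [Submodule.mem_dualCoannihilator] at hw
  rw [hw φ hφ, add_zero]

end transport

/-- **The generator preserves small sums of powers.** -/
theorem core [CharZero F] {n K d : ℕ} {T : Finset (Dual F (F × (Fin n → F)))}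
    {c : Dual F (F × (Fin n → F)) → F} (hg : Good T c) (hK : 2 ≤ K)
    (hcase : T.card ≤ K ∨ ∃ m, 1 ≤ m ∧ m ≤ d + 3 ∧ 2 * T.card ≤ m * d ∧ 2 * m ≤ K + 1)
    (Z : Set F) (hZ : Z.Infinite)
    (h : ∀ z ∈ Z, ∀ y : Fin K → F, ∑ φ ∈ T, c φ * φ (1, fun m : Fin n => coord K z y m) ^ d = 0) :
    ∀ X, ∑ φ ∈ T, c φ * φ X ^ d = 0 := by
  classical
  have hrel : ∀ z ∈ Z, ∀ Y, ∑ φ ∈ T, c φ * φ (gen n K z Y) ^ d = 0 := by
    intro z hz
    exact rel_of_affine T c (fun φ => φ ∘ₗ gen n K z) (h z hz)
  -- the bad points for pairs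
  have hpairs : (⋃ φ ∈ T, ⋃ ψ ∈ T, {z : F | ∃ χ ∈ Submodule.span F
      ({φ, ψ} : Set (Dual F (F × (Fin n → F)))), χ ≠ 0 ∧ χ ∘ₗ gen n K z = 0}).Finite := by
    refine Set.Finite.biUnion T.finite_toSet fun φ _ => Set.Finite.biUnion T.finite_toSet
      fun ψ _ => finite_bad_gen n K _ ?_
    refine le_trans ?_ hK
    have := finrank_span_finset_le_card (R := F) ({φ, ψ} : Finset (Dual F (F × (Fin n → F))))
    rw [Finset.coe_insert, Finset.coe_singleton] at this
    exact this.trans Finset.card_le_two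
  have hgood : ∀ z ∈ Z, z ∉ (⋃ φ ∈ T, ⋃ ψ ∈ T, {z : F | ∃ χ ∈ Submodule.span F
      ({φ, ψ} : Set (Dual F (F × (Fin n → F)))), χ ≠ 0 ∧ χ ∘ₗ gen n K z = 0}) →
      ∃ (T' : Finset (Dual F (F × (Fin K → F)))) (c' : Dual F (F × (Fin K → F)) → F),
        Good T' c' ∧ T'.card = T.card ∧ (∀ φ ∈ T, φ ∘ₗ gen n K z ∈ T') ∧ Rel d T' c' := by
    intro z hz hz2
    obtain ⟨T', c', h1, h2, h3, h4⟩ := hg.transport (gen n K z) (by
      intro φ hφ ψ hψ χ hχ h0
      by_contra hne
      apply hz2
      simp only [Set.mem_iUnion]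
      exact ⟨φ, hφ, ψ, hψ, χ, hχ, hne, h0⟩)
    refine ⟨T', c', h1, h2, h3, fun Y => ?_⟩
    rw [h4 d Y]
    exact hrel z hz Y
  -- the rank of `T`
  have hrank : finrank F (Submodule.span F (T : Set (Dual F (F × (Fin n → F))))) ≤ K := by
    rcases hcase with hc | ⟨m, hm1, hmd, hs, hmK⟩
    · exact (finrank_span_finset_le_card T).trans hc
    · by_contra hcon
      obtain ⟨B, hBT, hBk, hBli⟩ := exists_indep_subset (F := F) T (2 * m - 1) (by omega)
      have hBrank : finrank F (Submodule.span F (B : Set (Dual F (F × (Fin n → F))))) =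
          2 * m - 1 := by
        rw [finrank_span_finset_eq_card hBli, hBk]
      have hbad := finite_bad_gen n K (Submodule.span F (B : Set (Dual F (F × (Fin n → F)))))
        (by omega)
      obtain ⟨z, hz, hz2⟩ := hZ.exists_notMem_finite (hpairs.union hbad)
      rw [Set.mem_union, not_or] at hz2
      obtain ⟨T', c', h1, h2, h3, h4⟩ := hgood z hz hz2.1
      have hTne : T'.Nonempty := by
        have : B.Nonempty := by
          rw [← Finset.card_pos]; omega
        obtain ⟨φ, hφ⟩ := this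
        exact ⟨_, h3 φ (hBT hφ)⟩
      have hrb := rank_bound hm1 hmd T' c' h1 h4 hTne (by rw [h2]; exact hs)
      -- the pull-back as a linear map
      set P : Dual F (F × (Fin n → F)) →ₗ[F] Dual F (F × (Fin K → F)) :=
        Dual.transpose (gen n K z) with hP
      have hPapp : ∀ φ, P φ = φ ∘ₗ gen n K z := fun φ => rfl
      have hmap : (Submodule.span F (B : Set (Dual F (F × (Fin n → F))))).map P ≤
          Submodule.span F (T' : Set (Dual F (F × (Fin K → F)))) := by
        rw [Submodule.map_span, Submodule.span_le]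
        rintro _ ⟨φ, hφ, rfl⟩
        exact Submodule.subset_span (h3 φ (hBT hφ))
      have hinj : finrank F ((Submodule.span F (B : Set (Dual F (F × (Fin n → F))))).map P) =
          finrank F (Submodule.span F (B : Set (Dual F (F × (Fin n → F))))) := by
        have hker : Function.Injective (P.domRestrict
            (Submodule.span F (B : Set (Dual F (F × (Fin n → F)))))) := by
          rw [injective_iff_map_eq_zero]
          rintro ⟨χ, hχ⟩ hχ2
          rw [LinearMap.domRestrict_apply, hPapp] at hχ2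
          have : χ = 0 := by
            by_contra hne
            exact hz2.2 ⟨χ, hχ, hne, hχ2⟩
          exact Subtype.ext this
        have h5 := LinearMap.finrank_range_of_inj hker
        rw [LinearMap.range_domRestrict] at h5
        exact h5
      have := Submodule.finrank_mono hmap
      omega
  obtain ⟨z, hz, hz2⟩ := hZ.exists_notMem_finite (finite_bad_gen n K
    (Submodule.span F (T : Set (Dual F (F × (Fin n → F))))) hrank)
  intro X
  obtain ⟨Y, hY⟩ := exists_preimage (gen n K z)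
    (Submodule.span F (T : Set (Dual F (F × (Fin n → F))))) (by
      intro χ hχ h0
      by_contra hne
      exact hz2 ⟨χ, hχ, hne, h0⟩) X
  rw [← hrel z hz Y]
  apply Finset.sum_congr rfl
  intro φ hφ
  rw [hY φ (Submodule.subset_span hφ)]

/-- Every sum of `s` powers has a representation by at most `s` pairwise non-proportional nonzero
forms with nonzero coefficients. -/
theorem exists_good {E : Type*} [AddCommGroup E] [Module F E] [FiniteDimensional F E] {s d : ℕ}
    (hd : 1 ≤ d) (a : Fin s → F) (l : Fin s → Dual F E) :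
    ∃ (T : Finset (Dual F E)) (c : Dual F E → F), Good T c ∧ T.card ≤ s ∧
      ∀ X, ∑ φ ∈ T, c φ * φ X ^ d = ∑ i, a i * l i X ^ d := by
  classical
  have hw : ∀ X, ∑ φ ∈ Finset.univ.image l,
      (∑ i ∈ Finset.univ.filter (fun i => l i = φ), a i) * φ X ^ d = ∑ i, a i * l i X ^ d := by
    intro X
    rw [← Finset.sum_fiberwise_of_maps_to (s := Finset.univ) (t := Finset.univ.image l) (g := l)
      (fun i _ => Finset.mem_image_of_mem l (Finset.mem_univ i))]
    apply Finset.sum_congr rfl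
    intro φ _
    rw [Finset.sum_mul]
    apply Finset.sum_congr rfl
    intro i hi
    rw [(Finset.mem_filter.1 hi).2]
  have hex : ∃ k, ∃ (T : Finset (Dual F E)) (c : Dual F E → F), T.card = k ∧
      ∀ X, ∑ φ ∈ T, c φ * φ X ^ d = ∑ i, a i * l i X ^ d :=
    ⟨_, Finset.univ.image l, fun φ => ∑ i ∈ Finset.univ.filter (fun i => l i = φ), a i, rfl, hw⟩
  have hle : Nat.find hex ≤ s := by
    have h1 : Nat.find hex ≤ (Finset.univ.image l).card :=
      Nat.find_min' hex ⟨Finset.univ.image l,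
        fun φ => ∑ i ∈ Finset.univ.filter (fun i => l i = φ), a i, rfl, hw⟩
    exact h1.trans (Finset.card_image_le.trans (by simp))
  obtain ⟨T, c, hT, hsum⟩ := Nat.find_spec hex
  have hmin : ∀ (T' : Finset (Dual F E)) (c' : Dual F E → F), T'.card < T.card →
      ¬ ∀ X, ∑ φ ∈ T', c' φ * φ X ^ d = ∑ i, a i * l i X ^ d := by
    intro T' c' hlt hcon
    rw [hT] at hlt
    exact Nat.find_min hex hlt ⟨T', c', rfl, hcon⟩
  refine ⟨T, c, ⟨?_, ?_, ?_⟩, hT.trans_le hle, hsum⟩
  · intro φ hφ h0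
    apply hmin (T.erase φ) c (Finset.card_erase_lt_of_mem hφ)
    intro X
    rw [← hsum X, ← Finset.add_sum_erase T _ hφ, h0, LinearMap.zero_apply,
      zero_pow (by omega : d ≠ 0), mul_zero, zero_add]
  · intro φ hφ ψ hψ hne
    by_contra hcon
    push Not at hcon
    have hmem : ψ ∈ Submodule.span F ({φ} : Set (Dual F E)) := by
      by_contra hnot
      obtain ⟨x, hx, hx2⟩ := exists_coannihilator _ _ hnot
      rw [Submodule.mem_dualCoannihilator] at hx
      exact hx2 (hcon x (hx φ (Submodule.subset_span (by simp))))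
    obtain ⟨b, hb⟩ := Submodule.mem_span_singleton.1 hmem
    apply hmin (T.erase ψ) (Function.update c φ (c φ + c ψ * b ^ d))
      (Finset.card_erase_lt_of_mem hψ)
    intro X
    have hφ' : φ ∈ T.erase ψ := Finset.mem_erase.2 ⟨hne, hφ⟩
    rw [← hsum X, ← Finset.add_sum_erase T _ hψ, ← Finset.add_sum_erase _ _ hφ',
      ← Finset.add_sum_erase _ _ hφ', Function.update_self]
    have h1 : ∑ x ∈ (T.erase ψ).erase φ, Function.update c φ (c φ + c ψ * b ^ d) x * x X ^ d =
        ∑ x ∈ (T.erase ψ).erase φ, c x * x X ^ d := by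
      apply Finset.sum_congr rfl
      intro x hx
      rw [Function.update_of_ne (Finset.mem_erase.1 hx).1]
    rw [h1, ← hb, LinearMap.smul_apply, smul_eq_mul, mul_pow]
    ring
  · intro φ hφ h0
    apply hmin (T.erase φ) c (Finset.card_erase_lt_of_mem hφ)
    intro X
    rw [← hsum X, ← Finset.add_sum_erase T _ hφ, h0, zero_mul, zero_add]

end TH22.Wp
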