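import Mathlib

set_option autoImplicit false

namespace TH22.Wp

/-- The integer vectors `y` with `∏ (y_j + 1) ≤ S`. -/
def small (K S : ℕ) : Finset (Fin K → ℕ) :=
  (Fintype.piFinset fun _ => Finset.range S).filter fun y => ∏ j, (y j + 1) ≤ S

theorem mem_small {K S : ℕ} (y : Fin K → ℕ) : y ∈ small K S ↔ ∏ j, (y j + 1) ≤ S := by
  rw [small, Finset.mem_filter, Fintype.mem_piFinset]
  refine ⟨fun h => h.2, fun h => ⟨fun j => ?_, h⟩⟩
  rw [Finset.mem_range]
  have : y j + 1 ≤ ∏ j, (y j + 1) :=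
    Finset.single_le_prod' (f := fun j => y j + 1) (fun i _ => Nat.le_add_left 1 _)
      (Finset.mem_univ j)
  omega

theorem sum_inv_sq (S : ℕ) : ∑ t ∈ Finset.range (S + 1), (1 : ℚ) / ((t : ℚ) + 1) ^ 2 ≤
    2 - 1 / ((S : ℚ) + 1) := by
  induction S with
  | zero => norm_num
  | succ S ih =>
    rw [Finset.sum_range_succ]
    refine (add_le_add_left ih _).trans ?_
    have h1 : (0 : ℚ) < (S : ℚ) + 1 := by positivity
    have h2 : (1 : ℚ) / ((((S + 1 : ℕ) : ℚ)) + 1) ^ 2 ≤
        1 / ((S : ℚ) + 1) - 1 / (((S + 1 : ℕ) : ℚ) + 1) := by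
      push_cast
      rw [div_sub_div _ _ (by positivity) (by positivity), div_le_div_iff₀ (by positivity)
        (by positivity)]
      nlinarith
    linarith

/-- There are at most `S ^ 2 * 2 ^ K` such vectors. -/
theorem card_small (K S : ℕ) : (small K S).card ≤ S ^ 2 * 2 ^ K := by
  rcases Nat.eq_zero_or_pos S with h0 | hS
  · subst h0
    have : small K 0 = ∅ := by
      ext y
      rw [mem_small]
      simp only [Nat.le_zero, Finset.notMem_empty, iff_false]
      exact Finset.prod_ne_zero_iff.2 fun j _ => Nat.succ_ne_zero _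
    rw [this]; simp
  have hq : ((small K S).card : ℚ) ≤ (S : ℚ) ^ 2 * 2 ^ K := by
    calc ((small K S).card : ℚ) = ∑ _y ∈ small K S, (1 : ℚ) := by simp
      _ ≤ ∑ y ∈ small K S, (S : ℚ) ^ 2 * ∏ j, (1 : ℚ) / ((y j : ℚ) + 1) ^ 2 := by
          apply Finset.sum_le_sum
          intro y hy
          rw [mem_small] at hy
          have h1 : ∏ j, (1 : ℚ) / ((y j : ℚ) + 1) ^ 2 = 1 / (∏ j, ((y j : ℚ) + 1)) ^ 2 := by
            rw [← Finset.prod_pow, Finset.prod_div_distrib, Finset.prod_const_one]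
          have h2 : (∏ j, ((y j : ℚ) + 1)) ≤ (S : ℚ) := by exact_mod_cast hy
          have h3 : (0 : ℚ) < ∏ j, ((y j : ℚ) + 1) := Finset.prod_pos fun j _ => by positivity
          rw [h1, mul_one_div, le_div_iff₀ (by positivity), one_mul]
          exact pow_le_pow_left₀ h3.le h2 2
      _ ≤ ∑ y ∈ Fintype.piFinset fun _ : Fin K => Finset.range S,
            (S : ℚ) ^ 2 * ∏ j, (1 : ℚ) / ((y j : ℚ) + 1) ^ 2 := by
          apply Finset.sum_le_sum_of_subset_of_nonneg (Finset.filter_subset _ _)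
          intro y _ _
          positivity
      _ = (S : ℚ) ^ 2 * (∑ t ∈ Finset.range S, (1 : ℚ) / ((t : ℚ) + 1) ^ 2) ^ K := by
          rw [← Finset.mul_sum]
          congr 1
          have := Finset.prod_univ_sum (ι := Fin K) (κ := fun _ => ℕ)
            (fun _ : Fin K => Finset.range S) (fun _ t => (1 : ℚ) / ((t : ℚ) + 1) ^ 2)
          rw [← this, Finset.prod_const, Finset.card_univ, Fintype.card_fin]
      _ ≤ (S : ℚ) ^ 2 * 2 ^ K := by
          apply mul_le_mul_of_nonneg_left _ (by positivity)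
          apply pow_le_pow_left₀ (Finset.sum_nonneg fun t _ => by positivity)
          obtain ⟨S', rfl⟩ : ∃ S', S = S' + 1 := ⟨S - 1, by omega⟩
          refine (sum_inv_sq S').trans ?_
          have : (0 : ℚ) ≤ 1 / ((S' : ℚ) + 1) := by positivity
          linarith
  exact_mod_cast hq

end TH22.Wp
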