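import Mathlib
import Pool.Agent.TH22.Wp.Core
import Pool.Agent.TH22.Wp.Cone
import Pool.Agent.TH22.Wp.Count

set_option autoImplicit false

namespace TH22.Wp

open MvPolynomial Module

variable {F : Type*} [Field F]

/-- The linear form `b x₀ + ∑ l j x_j`. -/
noncomputable def linForm {n : ℕ} (b : F) (l : Fin n → F) : Dual F (F × (Fin n → F)) where
  toFun X := b * X.1 + ∑ j, l j * X.2 j
  map_add' X Y := by
    simp only [Prod.fst_add, Prod.snd_add, Pi.add_apply, mul_add, Finset.sum_add_distrib]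
    ring
  map_smul' a X := by
    simp only [Prod.smul_fst, Prod.smul_snd, Pi.smul_apply, smul_eq_mul, RingHom.id_apply,
      mul_add, Finset.mul_sum]
    congr 1
    · ring
    · apply Finset.sum_congr rfl
      intro j _
      ring

theorem eval_affForm {n : ℕ} (b : F) (l : Fin n → F) (x : Fin n → F) :
    eval x (affForm b l) = linForm b l (1, x) := by
  rw [affForm, map_add, eval_C, map_sum]
  simp [linForm]

/-- `f` is a sum of `s` constant multiples of `d`-th powers of affine forms. -/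
def IsPowerSum {n : ℕ} (s d : ℕ) (f : MvPolynomial (Fin n) F) : Prop :=
  ∃ (a b : Fin s → F) (l : Fin s → Fin n → F), f = ∑ i, C (a i) * affForm (b i) (l i) ^ d

/-- The set of `z` for which a nonzero sum of powers vanishes on the image of the generator. -/
theorem finite_vanishing [CharZero F] {n K s d : ℕ} (hd : 1 ≤ d) (hK : 2 ≤ K)
    (hcase : s ≤ K ∨ ∃ m, 1 ≤ m ∧ m ≤ d + 3 ∧ 2 * s ≤ m * d ∧ 2 * m ≤ K + 1)
    (f : MvPolynomial (Fin n) F) (hf : IsPowerSum s d f) (hf0 : f ≠ 0) :
    {z : F | ∀ y : Fin K → F, eval (fun m : Fin n => coord K z y m) f = 0}.Finite := by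
  obtain ⟨a, b, l, hfdef⟩ := hf
  obtain ⟨T, c, hg, hTs, hsum⟩ := exists_good (E := F × (Fin n → F)) hd a
    (fun i => linForm (b i) (l i))
  have hev : ∀ x : Fin n → F, eval x f = ∑ φ ∈ T, c φ * φ (1, x) ^ d := by
    intro x
    rw [hsum, hfdef, map_sum]
    apply Finset.sum_congr rfl
    intro i _
    rw [map_mul, eval_C, map_pow, eval_affForm]
  by_contra hinf
  apply hf0
  have hcore := core hg hK (by
    rcases hcase with h | ⟨m, h1, h2, h3, h4⟩
    · exact Or.inl (hTs.trans h)
    · exact Or.inr ⟨m, h1, h2, by omega, h4⟩) _ hinf (fun z hz y => by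
      rw [← hev]
      exact hz y)
  have hinfF : Infinite F := inferInstance
  apply MvPolynomial.funext
  intro x
  rw [hev x, hcore, map_zero]

/-- The coordinates of the generator, natural numbers. -/
def natCoord (K z : ℕ) (y : Fin K → ℕ) (m : ℕ) : ℕ :=
  ∑ j : Fin K, y j * (m.choose j * z ^ (m - j))

theorem cast_natCoord (K z : ℕ) (y : Fin K → ℕ) (m : ℕ) :
    ((natCoord K z y m : ℕ) : F) = coord K (z : F) (fun j => (y j : F)) m := by
  simp [natCoord, coord]

theorem natCoord_le {K z y₀ Z n : ℕ} (y : Fin K → ℕ) (hy : ∀ j, y j ≤ y₀) (hz : z ≤ Z)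
    (m : Fin n) : natCoord K z y m ≤ K * y₀ * (2 * (Z + 1)) ^ n := by
  rw [natCoord]
  calc ∑ j : Fin K, y j * ((m : ℕ).choose j * z ^ ((m : ℕ) - j))
      ≤ ∑ _j : Fin K, y₀ * (2 * (Z + 1)) ^ n := by
        apply Finset.sum_le_sum
        intro j _
        apply Nat.mul_le_mul (hy j)
        rw [mul_pow]
        apply Nat.mul_le_mul
        · exact (Nat.choose_le_two_pow _ _).trans (Nat.pow_le_pow_right (by norm_num) m.2.le)
        · calc z ^ ((m : ℕ) - j) ≤ (Z + 1) ^ ((m : ℕ) - j) := Nat.pow_le_pow_left (by omega) _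
            _ ≤ (Z + 1) ^ n := Nat.pow_le_pow_right (by omega) (by have := m.2; omega)
    _ = K * y₀ * (2 * (Z + 1)) ^ n := by
        rw [Finset.sum_const, Finset.card_univ, Fintype.card_fin, smul_eq_mul, mul_assoc]

/-- A value of the seed `z` can be chosen among `0, …, n D`. -/
theorem exists_seed [CharZero F] {n K D : ℕ} (f : MvPolynomial (Fin n) F)
    (hdeg : f.totalDegree ≤ D) (z : F) (y : Fin K → F)
    (h : eval (fun m : Fin n => coord K z y m) f ≠ 0) :
    ∃ z' ∈ Finset.range (n * D + 1), eval (fun m : Fin n => coord K ((z' : ℕ) : F) y m) f ≠ 0 := by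
  classical
  set p : Fin n → Polynomial F := fun m =>
    ∑ j : Fin K, Polynomial.C (y j * ((m : ℕ).choose j : F)) * Polynomial.X ^ ((m : ℕ) - j) with hp
  set q : Polynomial F := aeval p f with hq
  have hev : ∀ t : F, q.eval t = eval (fun m : Fin n => coord K t y m) f := by
    intro t
    have h1 : (Polynomial.evalRingHom t).comp (algebraMap F (Polynomial F)) = RingHom.id F := by
      ext x; simp
    have h2 : q.eval t = (Polynomial.evalRingHom t) (aeval p f) := rfl
    rw [h2, aeval_def, hom_eval₂, h1, eval₂_id]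
    congr 2
    funext m
    simp only [hp, Polynomial.coe_evalRingHom, Polynomial.eval_finsetSum, Polynomial.eval_mul,
      Polynomial.eval_C, Polynomial.eval_pow, Polynomial.eval_X, coord]
    apply Finset.sum_congr rfl
    intro j _
    ring
  have hq0 : q ≠ 0 := by
    intro h0
    apply h
    rw [← hev z, h0, Polynomial.eval_zero]
  have hqdeg : q.natDegree ≤ D * n := by
    apply aeval_natDegree_le f hdeg p
    intro m
    apply Polynomial.natDegree_sum_le_of_forall_le
    intro j _
    refine (Polynomial.natDegree_C_mul_X_pow_le _ _).trans ?_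
    have := m.2
    omega
  by_contra hcon
  push Not at hcon
  apply hq0
  apply Polynomial.eq_zero_of_natDegree_lt_card_of_eval_eq_zero' q
    ((Finset.range (n * D + 1)).image fun t : ℕ => (t : F))
  · intro t ht
    obtain ⟨z', hz', rfl⟩ := Finset.mem_image.1 ht
    rw [hev]
    exact hcon z' hz'
  · rw [Finset.card_image_of_injective _ Nat.cast_injective, Finset.card_range, mul_comm n D]
    omega

/-- The substitution of the generator with a fixed seed `z`. -/
noncomputable def pull (n K : ℕ) (z : F) : MvPolynomial (Fin n) F →ₐ[F] MvPolynomial (Fin K) F :=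
  aeval fun m : Fin n => ∑ j : Fin K, C ((((m : ℕ).choose j : F)) * z ^ ((m : ℕ) - j)) * X j

theorem eval_pull (n K : ℕ) (z : F) (y : Fin K → F) (f : MvPolynomial (Fin n) F) :
    eval y (pull n K z f) = eval (fun m : Fin n => coord K z y m) f := by
  have h1 : (eval y).comp (algebraMap F (MvPolynomial (Fin K) F)) = RingHom.id F := by
    ext x; simp
  rw [pull, map_aeval, h1]
  have h2 : (fun m : Fin n => (eval y) (∑ j : Fin K,
      C ((((m : ℕ).choose j : F)) * z ^ ((m : ℕ) - j)) * X j)) =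
      fun m : Fin n => coord K z y m := by
    funext m
    rw [map_sum, coord]
    apply Finset.sum_congr rfl
    intro j _
    rw [map_mul, eval_C, eval_X]
    ring
  rw [h2]
  rfl

theorem pull_ne_zero [CharZero F] {n K : ℕ} {z : F} {f : MvPolynomial (Fin n) F} {y : Fin K → F}
    (h : eval (fun m : Fin n => coord K z y m) f ≠ 0) : pull n K z f ≠ 0 := by
  intro h0
  apply h
  rw [← eval_pull, h0, map_zero]

theorem exists_of_pull_ne_zero [CharZero F] {n K : ℕ} {z : F} {f : MvPolynomial (Fin n) F}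
    (h : pull n K z f ≠ 0) : ∃ y : Fin K → F, eval (fun m : Fin n => coord K z y m) f ≠ 0 := by
  have hinfF : Infinite F := inferInstance
  by_contra hcon
  push Not at hcon
  apply h
  apply MvPolynomial.funext
  intro y
  rw [eval_pull, hcon y, map_zero]

/-- The substitution maps sums of powers to sums of powers. -/
theorem pull_affForm (n K : ℕ) (z : F) (b : F) (l : Fin n → F) :
    pull n K z (affForm b l) = affForm b (fun j : Fin K => ∑ m : Fin n,
      l m * ((((m : ℕ).choose j : F)) * z ^ ((m : ℕ) - j))) := by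
  rw [affForm, map_add, affForm, map_sum]
  have h1 : pull n K z (C b) = C b := by
    rw [← algebraMap_eq, AlgHom.commutes]
    rfl
  rw [h1]
  congr 1
  have h2 : ∀ m : Fin n, pull n K z (C (l m) * X m) =
      ∑ j : Fin K, C (l m * ((((m : ℕ).choose j : F)) * z ^ ((m : ℕ) - j))) * X j := by
    intro m
    have h3 : pull n K z (C (l m)) = C (l m) := by
      rw [← algebraMap_eq, AlgHom.commutes]
      rfl
    have h4 : pull n K z (X m) =
        ∑ j : Fin K, C ((((m : ℕ).choose j : F)) * z ^ ((m : ℕ) - j)) * X j := by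
      rw [pull, aeval_X]
    rw [map_mul, h3, h4, Finset.mul_sum]
    apply Finset.sum_congr rfl
    intro j _
    rw [← mul_assoc, ← C_mul]
  rw [Finset.sum_congr rfl fun m _ => h2 m, Finset.sum_comm]
  apply Finset.sum_congr rfl
  intro j _
  rw [map_sum, Finset.sum_mul]

theorem pull_isPowerSum {n s d : ℕ} (K : ℕ) (z : F) {f : MvPolynomial (Fin n) F}
    (hf : IsPowerSum s d f) : IsPowerSum s d (pull n K z f) := by
  obtain ⟨a, b, l, rfl⟩ := hf
  refine ⟨a, b, fun i j => ∑ m : Fin n, l i m * ((((m : ℕ).choose j : F)) * z ^ ((m : ℕ) - j)), ?_⟩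
  rw [map_sum]
  apply Finset.sum_congr rfl
  intro i _
  have h3 : pull n K z (C (a i)) = C (a i) := by
    rw [← algebraMap_eq, AlgHom.commutes]
    rfl
  rw [map_mul, h3, map_pow, pull_affForm]

theorem IsPowerSum.totalDegree_le {n s d : ℕ} {f : MvPolynomial (Fin n) F}
    (hf : IsPowerSum s d f) : f.totalDegree ≤ d := by
  obtain ⟨a, b, l, rfl⟩ := hf
  refine totalDegree_finsetSum_le fun i _ => ?_
  refine (totalDegree_mul _ _).trans ?_
  rw [totalDegree_C, zero_add]
  refine (totalDegree_pow _ _).trans ?_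
  have : (affForm (b i) (l i)).totalDegree ≤ 1 := by
    rw [affForm]
    refine (totalDegree_add _ _).trans (max_le (by simp) ?_)
    refine totalDegree_finsetSum_le fun j _ => ?_
    refine (totalDegree_mul _ _).trans ?_
    simp
  calc d * (affForm (b i) (l i)).totalDegree ≤ d * 1 := Nat.mul_le_mul_left _ this
    _ = d := mul_one d

theorem totalDegree_pull_le (n K : ℕ) (z : F) (f : MvPolynomial (Fin n) F) :
    (pull n K z f).totalDegree ≤ f.totalDegree := by
  rw [pull, aeval_def, eval₂_eq']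
  refine totalDegree_finsetSum_le fun m hm => ?_
  refine (totalDegree_mul _ _).trans ?_
  have h1 : (algebraMap F (MvPolynomial (Fin K) F) (coeff m f)).totalDegree = 0 := by
    rw [algebraMap_eq, totalDegree_C]
  rw [h1, zero_add]
  refine (totalDegree_finsetProd _ _).trans ?_
  refine le_trans ?_ (le_totalDegree hm)
  rw [Finsupp.sum_fintype _ _ fun _ => rfl]
  apply Finset.sum_le_sum
  intro i _
  refine (totalDegree_pow _ _).trans ?_
  have h2 : (∑ j : Fin K, (C ((((i : ℕ).choose j : F)) * z ^ ((i : ℕ) - j)) * X j :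
      MvPolynomial (Fin K) F)).totalDegree ≤ 1 := by
    refine totalDegree_finsetSum_le fun j _ => ?_
    refine (totalDegree_mul _ _).trans ?_
    rw [totalDegree_C, totalDegree_X]
  calc m i * _ ≤ m i * 1 := Nat.mul_le_mul_left _ h2
    _ = m i := mul_one _

/-- Hitting one small sum of powers. -/
theorem hit_one [CharZero F] {n K s d : ℕ} (hd : 1 ≤ d) (hK : 2 ≤ K)
    (hcase : s ≤ K ∨ ∃ m, 1 ≤ m ∧ m ≤ d + 3 ∧ 2 * s ≤ m * d ∧ 2 * m ≤ K + 1)
    (f : MvPolynomial (Fin n) F) (hf : IsPowerSum s d f) (hf0 : f ≠ 0) :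
    ∃ z ∈ Finset.range (n * d + 1), ∃ y ∈ small K (s * (d + 1)),
      eval (fun m : Fin n => ((natCoord K z y m : ℕ) : F)) f ≠ 0 := by
  have hfin := finite_vanishing hd hK hcase f hf hf0
  obtain ⟨z₀, hz₀⟩ := hfin.infinite_compl.nonempty
  simp only [Set.mem_compl_iff, Set.mem_ofPred_eq, not_forall] at hz₀
  obtain ⟨y₀, hy₀⟩ := hz₀
  obtain ⟨z, hz, hz2⟩ := exists_seed f hf.totalDegree_le z₀ y₀ hy₀
  obtain ⟨a, b, l, hdef⟩ := pull_isPowerSum K ((z : ℕ) : F) hf
  obtain ⟨y, hy, hy2⟩ := exists_small_point a b l _ hdef (pull_ne_zero hz2)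
  refine ⟨z, hz, y, (mem_small y).2 hy, ?_⟩
  simp only [cast_natCoord]
  rwa [eval_pull] at hy2

/-- Hitting all divisors of products of small sums of powers. -/
theorem hit_divisor [CharZero F] {n K D : ℕ} (hK : 2 ≤ K) {ι : Type*} (J : Finset ι)
    (P : ι → MvPolynomial (Fin n) F) (s d : ι → ℕ) (hP0 : ∀ i ∈ J, P i ≠ 0)
    (hP : ∀ i ∈ J, IsPowerSum (s i) (d i) (P i)) (hd : ∀ i ∈ J, 1 ≤ d i)
    (hcase : ∀ i ∈ J, s i ≤ K ∨ ∃ m, 1 ≤ m ∧ m ≤ d i + 3 ∧ 2 * s i ≤ m * d i ∧ 2 * m ≤ K + 1)
    (f : MvPolynomial (Fin n) F) (hf : f ∣ ∏ i ∈ J, P i) (hdeg : f.totalDegree ≤ D) :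
    ∃ z ∈ Finset.range (n * D + 1), ∃ y ∈ Fintype.piFinset fun _ : Fin K => Finset.range (D + 1),
      eval (fun m : Fin n => ((natCoord K z y m : ℕ) : F)) f ≠ 0 := by
  classical
  have hfin : (⋃ i ∈ J, {z : F | ∀ y : Fin K → F,
      eval (fun m : Fin n => coord K z y m) (P i) = 0}).Finite :=
    Set.Finite.biUnion J.finite_toSet fun i hi =>
      finite_vanishing (hd i hi) hK (hcase i hi) (P i) (hP i hi) (hP0 i hi)
  obtain ⟨z₀, hz₀⟩ := hfin.infinite_compl.nonempty
  simp only [Set.mem_compl_iff, Set.mem_iUnion, not_exists, Set.mem_ofPred_eq, not_forall] at hz₀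
  have hpull : pull n K z₀ f ≠ 0 := by
    intro h0
    obtain ⟨g, hg⟩ := hf
    have h1 : ∏ i ∈ J, pull n K z₀ (P i) = 0 := by
      rw [← map_prod, hg, map_mul, h0, zero_mul]
    obtain ⟨i, hi, hi0⟩ := Finset.prod_eq_zero_iff.1 h1
    obtain ⟨y, hy⟩ := hz₀ i hi
    exact pull_ne_zero hy hi0
  obtain ⟨y₀, hy₀⟩ := exists_of_pull_ne_zero hpull
  obtain ⟨z, hz, hz2⟩ := exists_seed f hdeg z₀ y₀ hy₀
  have hg0 : pull n K ((z : ℕ) : F) f ≠ 0 := pull_ne_zero hz2
  have hgdeg : (pull n K ((z : ℕ) : F) f).totalDegree ≤ D :=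
    (totalDegree_pull_le _ _ _ _).trans hdeg
  obtain ⟨e, he, hedeg⟩ : ∃ e, coeff e (pull n K ((z : ℕ) : F) f) ≠ 0 ∧
      (pull n K ((z : ℕ) : F) f).totalDegree = e.degree := by
    obtain ⟨m, hm, hm2⟩ := Finset.exists_mem_eq_sup (pull n K ((z : ℕ) : F) f).support (by
      rwa [Finset.nonempty_iff_ne_empty, ne_eq, MvPolynomial.support_eq_empty]) fun m => m.degree
    refine ⟨m, mem_support_iff.1 hm, ?_⟩
    rw [totalDegree, ← hm2]
    rfl
  obtain ⟨x, hx, hx2⟩ := combinatorial_nullstellensatz_exists_eval_nonzero _ e he hedeg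
    (fun j => (Finset.range (D + 1)).image (fun t : ℕ => (t : F))) (fun j => by
      rw [Finset.card_image_of_injective _ Nat.cast_injective, Finset.card_range]
      have h1 : e j ≤ e.degree := Finsupp.le_degree j e
      omega)
  choose y hy using fun j => Finset.mem_image.1 (hx j)
  refine ⟨z, hz, y, Fintype.mem_piFinset.2 fun j => (hy j).1, ?_⟩
  simp only [cast_natCoord]
  have h1 : (fun j => (y j : F)) = x := funext fun j => (hy j).2
  rw [h1, ← eval_pull]
  exact hx2

end TH22.Wp
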