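import Mathlib
import Pool.Agent.TH22.Wp.Count

set_option autoImplicit false

namespace TH22.Wp

theorem sum_inv_pow (S q : ℕ) : ∑ t ∈ Finset.range S, (1 : ℝ) / ((t : ℝ) + 1) ^ (q + 2) ≤
    1 + 1 / 2 ^ q := by
  rcases Nat.eq_zero_or_pos S with h0 | hS
  · subst h0
    simp only [Finset.range_zero, Finset.sum_empty]
    positivity
  obtain ⟨S', rfl⟩ : ∃ S', S = S' + 1 := ⟨S - 1, by omega⟩
  clear hS
  suffices h : ∑ t ∈ Finset.range (S' + 1), (1 : ℝ) / ((t : ℝ) + 1) ^ (q + 2) ≤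
      1 + 1 / 2 ^ q * (1 - 1 / ((S' : ℝ) + 1)) by
    refine h.trans ?_
    have h1 : (0 : ℝ) ≤ 1 / 2 ^ q := by positivity
    have h2 : (0 : ℝ) ≤ 1 / ((S' : ℝ) + 1) := by positivity
    nlinarith
  induction S' with
  | zero => simp
  | succ S ih =>
    rw [Finset.sum_range_succ]
    have h1 : (0 : ℝ) < (S : ℝ) + 1 := by positivity
    have h2 : (1 : ℝ) / ((((S + 1 : ℕ) : ℝ)) + 1) ^ (q + 2) ≤
        1 / 2 ^ q * (1 / ((S : ℝ) + 1) - 1 / (((S + 1 : ℕ) : ℝ) + 1)) := by
      have h3 : (2 : ℝ) ^ q ≤ ((((S + 1 : ℕ) : ℝ)) + 1) ^ q := by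
        apply pow_le_pow_left₀ (by norm_num)
        push_cast
        have : (0 : ℝ) ≤ (S : ℝ) := Nat.cast_nonneg S
        linarith
      have h4 : (1 : ℝ) / ((((S + 1 : ℕ) : ℝ)) + 1) ^ 2 ≤
          1 / ((S : ℝ) + 1) - 1 / (((S + 1 : ℕ) : ℝ) + 1) := by
        push_cast
        rw [div_sub_div _ _ (by positivity) (by positivity), div_le_div_iff₀ (by positivity)
          (by positivity)]
        nlinarith
      calc (1 : ℝ) / ((((S + 1 : ℕ) : ℝ)) + 1) ^ (q + 2)
          = 1 / ((((S + 1 : ℕ) : ℝ)) + 1) ^ q * (1 / ((((S + 1 : ℕ) : ℝ)) + 1) ^ 2) := by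
            rw [pow_add]; field_simp
        _ ≤ 1 / 2 ^ q * (1 / ((S : ℝ) + 1) - 1 / (((S + 1 : ℕ) : ℝ) + 1)) := by
            apply mul_le_mul _ h4 (by positivity) (by positivity)
            exact one_div_le_one_div_of_le (by positivity) h3
    calc _ ≤ 1 + 1 / 2 ^ q * (1 - 1 / ((S : ℝ) + 1)) +
          1 / 2 ^ q * (1 / ((S : ℝ) + 1) - 1 / (((S + 1 : ℕ) : ℝ) + 1)) := add_le_add ih h2
      _ = _ := by ring

/-- A second bound for the number of small vectors, for many coordinates. -/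
theorem card_small' (K S q : ℕ) (hq : K ≤ 2 ^ q) :
    (small K S).card ≤ 3 * S ^ (q + 2) := by
  rcases Nat.eq_zero_or_pos S with h0 | hS
  · subst h0
    have : small K 0 = ∅ := by
      ext y
      rw [mem_small]
      simp only [Nat.le_zero, Finset.notMem_empty, iff_false]
      exact Finset.prod_ne_zero_iff.2 fun j _ => Nat.succ_ne_zero _
    rw [this]; simp
  have hr : ((small K S).card : ℝ) ≤ 3 * (S : ℝ) ^ (q + 2) := by
    calc ((small K S).card : ℝ) = ∑ _y ∈ small K S, (1 : ℝ) := by simp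
      _ ≤ ∑ y ∈ small K S, (S : ℝ) ^ (q + 2) * ∏ j, (1 : ℝ) / ((y j : ℝ) + 1) ^ (q + 2) := by
          apply Finset.sum_le_sum
          intro y hy
          rw [mem_small] at hy
          have h1 : ∏ j, (1 : ℝ) / ((y j : ℝ) + 1) ^ (q + 2) =
              1 / (∏ j, ((y j : ℝ) + 1)) ^ (q + 2) := by
            rw [← Finset.prod_pow, Finset.prod_div_distrib, Finset.prod_const_one]
          have h2 : (∏ j, ((y j : ℝ) + 1)) ≤ (S : ℝ) := by exact_mod_cast hy
          have h3 : (0 : ℝ) < ∏ j, ((y j : ℝ) + 1) := Finset.prod_pos fun j _ => by positivity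
          rw [h1, mul_one_div, le_div_iff₀ (by positivity), one_mul]
          exact pow_le_pow_left₀ h3.le h2 _
      _ ≤ ∑ y ∈ Fintype.piFinset fun _ : Fin K => Finset.range S,
            (S : ℝ) ^ (q + 2) * ∏ j, (1 : ℝ) / ((y j : ℝ) + 1) ^ (q + 2) := by
          apply Finset.sum_le_sum_of_subset_of_nonneg (Finset.filter_subset _ _)
          intro y _ _
          positivity
      _ = (S : ℝ) ^ (q + 2) *
            (∑ t ∈ Finset.range S, (1 : ℝ) / ((t : ℝ) + 1) ^ (q + 2)) ^ K := by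
          rw [← Finset.mul_sum]
          congr 1
          have := Finset.prod_univ_sum (ι := Fin K) (κ := fun _ => ℕ)
            (fun _ : Fin K => Finset.range S) (fun _ t => (1 : ℝ) / ((t : ℝ) + 1) ^ (q + 2))
          rw [← this, Finset.prod_const, Finset.card_univ, Fintype.card_fin]
      _ ≤ (S : ℝ) ^ (q + 2) * 3 := by
          apply mul_le_mul_of_nonneg_left _ (by positivity)
          calc (∑ t ∈ Finset.range S, (1 : ℝ) / ((t : ℝ) + 1) ^ (q + 2)) ^ K
              ≤ (1 + 1 / 2 ^ q) ^ K :=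
                pow_le_pow_left₀ (Finset.sum_nonneg fun t _ => by positivity) (sum_inv_pow S q) K
            _ ≤ (Real.exp (1 / 2 ^ q)) ^ K := by
                apply pow_le_pow_left₀ (by positivity)
                rw [add_comm]
                exact Real.add_one_le_exp _
            _ = Real.exp (K * (1 / 2 ^ q)) := by rw [← Real.exp_nat_mul]
            _ ≤ Real.exp 1 := by
                apply Real.exp_le_exp.2
                rw [mul_one_div, div_le_one (by positivity)]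
                exact_mod_cast hq
            _ ≤ 3 := by
                have := Real.exp_one_lt_d9
                linarith
      _ = 3 * (S : ℝ) ^ (q + 2) := by ring
  exact_mod_cast hr

theorem nine_sq_le (j : ℕ) : 9 * (j + 1) ^ 2 ≤ 21 * 2 ^ j := by
  induction j with
  | zero => norm_num
  | succ j ih =>
    rcases Nat.lt_or_ge j 3 with h | h
    · interval_cases j <;> norm_num
    · have h1 : (j + 1 + 1) ^ 2 ≤ 2 * (j + 1) ^ 2 := by nlinarith
      have h2 : 2 ^ (j + 1) = 2 * 2 ^ j := by ring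
      omega

theorem succ_sq_le {k m : ℕ} (h : 2 ^ k ≤ m ^ 3) : (k + 1) ^ 2 ≤ 21 * m := by
  set j := k / 3 with hj
  have h1 : 3 * j ≤ k := Nat.mul_div_le k 3
  have h2 : k < 3 * (j + 1) := by omega
  have h3 : (2 ^ j) ^ 3 ≤ m ^ 3 := by
    rw [← pow_mul, mul_comm j 3]
    exact (Nat.pow_le_pow_right (by norm_num) h1).trans h
  have h4 : 2 ^ j ≤ m := (Nat.pow_le_pow_iff_left (by norm_num)).1 h3
  calc (k + 1) ^ 2 ≤ (3 * (j + 1)) ^ 2 := Nat.pow_le_pow_left h2 2
    _ = 9 * (j + 1) ^ 2 := by ring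
    _ ≤ 21 * 2 ^ j := nine_sq_le j
    _ ≤ 21 * m := Nat.mul_le_mul_left _ h4

end TH22.Wp
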